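import Mathlib
import Pool.Agent.H16.LA.S8.Y733.HEN.Hen2
import Pool.Agent.H16.LH.Loc

/-!
# Hénon maps with a large constant term over extensions of arbitrary degree
-/

set_option autoImplicit false
set_option linter.unusedSectionVars false

namespace Pool.Agent.H16.LH

open NumberField IsDedekindDomain Polynomial Pool.Agent.H691R3 Pool.Agent.W223.AK
open Pool.Agent.Y733.LS Pool.Agent.Y733.DYN Pool.Agent.Y733.HEN Pool.Agent.Y733.UD
open Pool.Agent.W222.UABC (cS_empty)

section One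

variable {K : Type} [Field K] [NumberField K]

theorem pol_finite (c : K) : {v : Pr K | 1 < fv v c}.Finite :=
  (ne_sets (K := K) one_ne_zero one_ne_zero c).subset fun _ hv => Or.inr (Or.inr hv)

/-- the poles -/
noncomputable def pol (c : K) : Finset (Pr K) := (pol_finite c).toFinset

theorem mem_pol {c : K} {v : Pr K} : v ∈ pol c ↔ 1 < fv v c := by
  unfold pol
  rw [Set.Finite.mem_toFinset]
  rfl

open Classical in
/-- the poles of multiplicity less than `q` -/
noncomputable def gpol (q : ℕ) (c : K) : Finset (Pr K) := (pol c).filter fun v => fv v c < Nv v ^ q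

theorem mem_gpol {q : ℕ} {c : K} {v : Pr K} :
    v ∈ gpol q c ↔ 1 < fv v c ∧ fv v c < Nv v ^ q := by
  unfold gpol
  rw [Finset.mem_filter, mem_pol]

/-- the sum of `log N v` over the poles of multiplicity less than `q` -/
noncomputable def gp (q : ℕ) (c : K) : ℝ := ∑ v ∈ gpol q c, Real.log (Nv v)

theorem gp_nonneg (q : ℕ) (c : K) : 0 ≤ gp q c := Finset.sum_nonneg fun v _ => (log_Nv_pos v).le

/-- the conditions at a prime of `K` -/
def OkD (q : ℕ) (F : K[X]) (δ : K) (v : Pr K) : Prop :=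
  (1 < fv v (F.coeff 0) ∧ fv v (F.coeff 0) < Nv v ^ q) ∧
    (∀ i, 1 ≤ i → fv v (F.coeff i) ≤ 1) ∧ fv v F.leadingCoeff = 1 ∧ fv v δ ≤ 1

theorem exists_SD (q : ℕ) (F : K[X]) (δ : K) (T : Finset (Pr K))
    (hT : ∀ v, v ∉ T → GoodP F v ∧ fv v δ ≤ 1) :
    ∃ S : Finset (Pr K), (∀ v ∈ S, v ∉ T ∧ OkD q F δ v) ∧
      gp q (F.coeff 0) - ∑ v ∈ T, Real.log (Nv v) ≤ ∑ v ∈ S, Real.log (Nv v) := by
  classical
  have hlog : ∀ v : Pr K, 0 ≤ Real.log (Nv v) := fun v => (log_Nv_pos v).le
  refine ⟨gpol q (F.coeff 0) \ T, fun v hv => ?_, ?_⟩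
  · rw [Finset.mem_sdiff, mem_gpol] at hv
    obtain ⟨⟨g1, g2⟩, g3⟩ := hT v hv.2
    exact ⟨hv.2, hv.1, g1, g2, g3⟩
  · unfold gp
    have h2 : ∑ v ∈ gpol q (F.coeff 0), Real.log (Nv v) ≤
        ∑ v ∈ (gpol q (F.coeff 0) \ T) ∪ T, Real.log (Nv v) := by
      refine Finset.sum_le_sum_of_subset_of_nonneg (fun v hv => ?_) fun v _ _ => hlog v
      rw [Finset.mem_union, Finset.mem_sdiff]
      by_cases h : v ∈ T
      · exact Or.inr h
      · exact Or.inl ⟨hv, h⟩
    rw [Finset.sum_union Finset.sdiff_disjoint] at h2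
    linarith

end One

section Two

variable {K L : Type} [Field K] [NumberField K] [Field L] [NumberField L] [Algebra K L]

theorem mem_Ab_under {v : Pr K} {w : Pr L} (h : w ∈ Ab L v) : w.under (𝓞 K) = v := by
  apply HeightOneSpectrum.ext
  exact (mem_Ab.1 h).over.symm

/-- the ramification indices outside `T` have a small common divisor with `d` -/
def Alw (q d : ℕ) (T : Finset (Pr K)) (L : Type) [Field L] [NumberField L] [Algebra K L] : Prop :=
  ∀ w : Pr L, w.under (𝓞 K) ∉ T → q * Nat.gcd d (w.asIdeal.ramificationIdx (𝓞 K)) ≤ d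

/-- the divisibility -/
theorem no_div {q d e k : ℕ} (hd : 0 < d) (hk : 0 < k) (hkq : k < q)
    (hq : q * Nat.gcd d e ≤ d) : ¬ d ∣ k * e := by
  intro h
  set g := Nat.gcd d e with hg
  have hg0 : 0 < g := Nat.gcd_pos_of_pos_left _ hd
  obtain ⟨d', hd'⟩ := Nat.gcd_dvd_left d e
  obtain ⟨e', he'⟩ := Nat.gcd_dvd_right d e
  rw [← hg] at hd' he'
  have hcop : Nat.Coprime d' e' := by
    have h1 := Nat.coprime_div_gcd_div_gcd hg0
    have e1 : d / Nat.gcd d e = d' := by
      rw [← hg]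
      exact Nat.div_eq_of_eq_mul_right hg0 hd'
    have e2 : e / Nat.gcd d e = e' := by
      rw [← hg]
      exact Nat.div_eq_of_eq_mul_right hg0 he'
    rwa [e1, e2] at h1
  have h2 : d' ∣ k * e' := by
    rw [hd', he'] at h
    have h3 : g * d' ∣ g * (k * e') := by
      have e3 : k * (g * e') = g * (k * e') := by ring
      rwa [e3] at h
    exact (Nat.mul_dvd_mul_iff_left hg0).1 h3
  have h4 : d' ∣ k := hcop.dvd_of_dvd_mul_right h2
  have h5 : d' ≤ k := Nat.le_of_dvd hk h4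
  have h6 : q * g ≤ g * d' := by rw [← hd']; exact hq
  have h7 : q ≤ d' := by
    rw [mul_comm] at h6
    exact Nat.le_of_mul_le_mul_left h6 hg0
  omega

theorem locD_of {F : K[X]} {δ : K} (hd : 2 ≤ F.natDegree) (hδ : δ ≠ 0) {q : ℕ}
    {T : Finset (Pr K)} (hL : Alw q F.natDegree T L) {v : Pr K} (hvT : v ∉ T)
    (hv : OkD q F δ v) {w : Pr L} (hw : w ∈ Ab L v) :
    ∃ r : ℝ, Nv w ^ ri v w ≤ r ∧ LocD (fv w) (F.map (algebraMap K L)) (algebraMap K L δ) r := by
  have hN := Nv_one_lt w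
  have hri := ri_pos hw
  obtain ⟨⟨h1, h1'⟩, h2, h3, h4⟩ := hv
  have hinj : Function.Injective (algebraMap K L) := (algebraMap K L).injective
  have hc0 : F.coeff 0 ≠ 0 := by
    intro h
    rw [h, map_zero] at h1
    linarith
  obtain ⟨k, hk⟩ := fv_zpow v hc0
  have hk1 : 1 ≤ k := by
    by_contra hcon
    push Not at hcon
    have h6 : Nv v ^ k ≤ Nv v ^ (0 : ℤ) := zpow_le_zpow_right₀ (Nv_one_lt v).le (by omega)
    rw [zpow_zero] at h6
    rw [hk] at h1
    linarith
  obtain ⟨k, rfl⟩ : ∃ k' : ℕ, k = k' := ⟨k.toNat, by omega⟩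
  have hk1' : 1 ≤ k := by exact_mod_cast hk1
  have hkq : k < q := by
    by_contra hcon
    push Not at hcon
    rw [hk, zpow_natCast] at h1'
    have := pow_le_pow_right₀ (Nv_one_lt v).le hcon
    linarith
  have hce := fv_ext hw hk
  have hprod : 1 ≤ k * ri v w := Nat.mul_pos hk1' hri
  have hr : (Nv w) ^ ((k : ℤ) * ri v w) = Nv w ^ (k * ri v w) := by
    rw [← zpow_natCast]
    push_cast
    rfl
  rw [hr] at hce
  refine ⟨Nv w ^ (k * ri v w), ?_, ?_⟩
  · apply pow_le_pow_right₀ hN.le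
    exact Nat.le_mul_of_pos_left _ hk1'
  refine ⟨fv_Na w, one_lt_pow₀ hN (by omega), ?_, ?_, ?_, ext_le hw h4, ?_, ?_, ?_⟩
  · rw [coeff_map]
    exact hce
  · intro i hi
    rw [coeff_map]
    exact ext_le hw (h2 i hi)
  · rw [leadingCoeff_map]
    have h5 : fv v F.leadingCoeff = Nv v ^ (0 : ℤ) := by rw [h3, zpow_zero]
    rw [fv_ext hw h5, zero_mul, zpow_zero]
  · rwa [Ne, map_eq_zero_iff _ hinj]
  · rwa [natDegree_map]
  · intro y
    rw [natDegree_map]
    intro hcon
    have hy0 : y ≠ 0 := by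
      rintro rfl
      rw [map_zero, zero_pow (by omega)] at hcon
      have := pow_pos (Nv_pos w) (k * ri v w)
      linarith
    obtain ⟨m, hm⟩ := fv_zpow w hy0
    rw [hm, ← zpow_natCast, ← zpow_natCast, ← zpow_mul] at hcon
    have h5 : m * (F.natDegree : ℤ) = ((k * ri v w : ℕ) : ℤ) :=
      zpow_right_injective₀ (Nv_pos w) hN.ne' hcon
    have h6 : (F.natDegree : ℤ) ∣ ((k * ri v w : ℕ) : ℤ) := ⟨m, by rw [← h5]; ring⟩
    have h7 : F.natDegree ∣ k * ri v w := Int.natCast_dvd_natCast.1 h6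
    have h8 := hL w (by rw [mem_Ab_under hw]; exact hvT)
    rw [← ri_eq hw] at h8
    exact no_div (by omega) (by omega) hkq h8 h7

/-- **heights of the iterates** -/
theorem hen_iterD {F : K[X]} {δ : K} (hd : 2 ≤ F.natDegree) (hδ : δ ≠ 0) {q : ℕ}
    {T : Finset (Pr K)} (hL : Alw q F.natDegree T L) (S : Finset (Pr K))
    (hS : ∀ v ∈ S, v ∉ T ∧ OkD q F δ v) (P : L × L) (k : ℕ) :
    (F.natDegree : ℝ) ^ k * (Module.finrank K L * ∑ v ∈ S, Real.log (Nv v)) ≤
      pht ((henL L F δ)^[k + 1] P) + pht ((invL L F δ)^[k + 1] P) := by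
  classical
  have hdisj : ∀ v ∈ S, ∀ v' ∈ S, v ≠ v' → Disjoint (Ab L v) (Ab L v') :=
    fun v _ v' _ h => Ab_disj h
  refine le_trans ?_ (add_le_add (sum_le_pht (S.biUnion (Ab L)) _)
    (sum_le_pht (S.biUnion (Ab L)) _))
  rw [← Finset.sum_add_distrib, Finset.sum_biUnion hdisj, Finset.mul_sum, Finset.mul_sum]
  refine Finset.sum_le_sum fun v hv => ?_
  rw [← sum_Ab (L := L) v, Finset.mul_sum]
  refine Finset.sum_le_sum fun w hw => ?_
  have hN := Nv_one_lt w
  have hN0 := Nv_pos w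
  obtain ⟨r, hrr, hloc⟩ := locD_of hd hδ hL (hS v hv).1 (hS v hv).2 hw
  have hr := hloc.one_lt
  have h3 : (F.natDegree : ℝ) ^ k * ((ri v w : ℝ) * Real.log (Nv w)) ≤
      Real.log (r ^ F.natDegree ^ k) := by
    have h3' : (F.natDegree : ℝ) ^ k * ((ri v w : ℝ) * Real.log (Nv w)) =
        Real.log ((Nv w ^ ri v w) ^ F.natDegree ^ k) := by
      rw [Real.log_pow, Real.log_pow]
      push_cast
      ring
    rw [h3']
    apply Real.log_le_log (by positivity)
    exact pow_le_pow_left₀ (by positivity) hrr _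
  have hnn : ∀ Q : L × L, 0 ≤ Real.log (mx (fv w) ![Q.1, Q.2]) := fun Q =>
    Real.log_nonneg (one_le_mx _)
  have hdm : (F.map (algebraMap K L)).natDegree = F.natDegree := natDegree_map _
  refine h3.trans ?_
  rcases escape hloc P with h4 | h4
  · have h5 := h4 k
    rw [hdm] at h5
    have h6 := h5.trans (le_mx (w := fv w) ![((henL L F δ)^[k + 1] P).1,
      ((henL L F δ)^[k + 1] P).2] 1)
    have h7 := Real.log_le_log (by positivity) h6
    have h8 := hnn ((invL L F δ)^[k + 1] P)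
    linarith
  · have h5 := h4 (k + 1)
    rw [hdm] at h5
    have h6 := h5.trans (le_mx (w := fv w) ![((invL L F δ)^[k + 1] P).1,
      ((invL L F δ)^[k + 1] P).2] 0)
    have h7 : r ^ F.natDegree ^ k ≤ r ^ F.natDegree ^ (k + 1) :=
      pow_le_pow_right₀ hr.le (Nat.pow_le_pow_right (by omega) (by omega))
    have h9 := Real.log_le_log (by positivity) (h7.trans h6)
    have h8 := hnn ((henL L F δ)^[k + 1] P)
    linarith

end Two

/-- the constant terms for which all Hénon maps push all points away -/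
def HenD (q : ℕ) (κ : ℝ) {K : Type} [Field K] [NumberField K] (c : K) : Prop :=
  ∀ (F : K[X]) (δ : K), 2 ≤ F.natDegree → F.coeff 0 = c → δ ≠ 0 →
    ∀ T : Finset (Pr K), (∀ v, v ∉ T → GoodP F v ∧ fv v δ ≤ 1) →
    ∀ (L : Type) [Field L] [NumberField L] [Algebra K L], Alw q F.natDegree T L →
      ∀ (P : L × L) (k : ℕ),
        (F.natDegree : ℝ) ^ k * (Module.finrank K L *
          (κ * (Module.finrank ℚ K + ht c) - ∑ v ∈ T, Real.log (Nv v))) ≤
          pht ((henL L F δ)^[k + 1] P) + pht ((invL L F δ)^[k + 1] P)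

theorem henD_of {K : Type} [Field K] [NumberField K] {q : ℕ} {κ κ' : ℝ} (hκκ : κ < κ') (c : K)
    (hc : κ' * ht c ≤ gp q c) (hbig : Module.finrank ℚ K * (κ / (κ' - κ)) ≤ ht c) :
    HenD q κ c := by
  intro F δ hd hF0 hδ T hT L _ _ _ hL P k
  obtain ⟨S, hS, hsum⟩ := exists_SD q F δ T hT
  refine le_trans ?_ (hen_iterD hd hδ hL S hS P k)
  refine mul_le_mul_of_nonneg_left (mul_le_mul_of_nonneg_left ?_ (Nat.cast_nonneg _))
    (by positivity)
  refine le_trans ?_ hsum
  rw [hF0]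
  have h3 : (Module.finrank ℚ K : ℝ) * κ ≤ (κ' - κ) * ht c := by
    have h4 : 0 < κ' - κ := by linarith
    have h5 := mul_le_mul_of_nonneg_left hbig h4.le
    have h6 : (κ' - κ) * (Module.finrank ℚ K * (κ / (κ' - κ))) = Module.finrank ℚ K * κ := by
      field_simp
    linarith
  linarith

section Count

/-- the radical of the denominator -/
theorem rl_den {K : Type} [Field K] [NumberField K] {q : ℕ} (hq : 1 ≤ q) {c : K}
    {P : Fin 3 → Idl K} (hP : IsP ∅ c P) :
    rl (P 1) ≤ (1 - 1 / q) * gp q c + len (P 1) / q := by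
  classical
  have hval : ∀ v, max (fv v c) 1 = (Nv v) ^ (P 1 v) := by
    intro v
    have h1 := hP.val 1 v (by simp)
    rw [L_one, map_one] at h1
    have h2 := Nv_pos v
    rw [zpow_neg, zpow_natCast] at h1
    have h3 : (Nv v) ^ (P 1 v) ≠ 0 := by positivity
    field_simp at h1
    exact h1.symm
  have hq0 : (0 : ℝ) < q := by exact_mod_cast hq
  set G := (P 1).support.filter fun v => P 1 v < q with hG
  have hGsum : ∑ v ∈ G, Real.log (Nv v) ≤ gp q c := by
    unfold gp
    refine Finset.sum_le_sum_of_subset_of_nonneg ?_ fun w _ _ => (log_Nv_pos w).le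
    intro v hv
    obtain ⟨hv1, hv2⟩ := Finset.mem_filter.1 hv
    rw [Finsupp.mem_support_iff] at hv1
    have h1 := hval v
    have hN := Nv_one_lt v
    have h2 : 1 < Nv v ^ (P 1 v) := one_lt_pow₀ hN hv1
    have h3 : 1 < fv v c := by
      rw [← h1] at h2
      rcases lt_max_iff.1 h2 with h3 | h3
      · exact h3
      · exact absurd h3 (lt_irrefl _)
    rw [mem_gpol]
    refine ⟨h3, ?_⟩
    rw [max_eq_left h3.le] at h1
    rw [h1]
    exact pow_lt_pow_right₀ hN hv2
  have key : rl (P 1) ≤ (1 - 1 / q) * ∑ v ∈ G, Real.log (Nv v) + len (P 1) / q := by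
    rw [hG, Finset.sum_filter]
    unfold rl len
    rw [Finset.sum_div, Finset.mul_sum, ← Finset.sum_add_distrib]
    refine Finset.sum_le_sum fun v hv => ?_
    have hlog := log_Nv_pos v
    rw [Finsupp.mem_support_iff] at hv
    have h1 : (1 : ℝ) ≤ (P 1 v : ℝ) := by exact_mod_cast Nat.one_le_iff_ne_zero.2 hv
    by_cases h6 : P 1 v < q
    · rw [if_pos h6]
      have h7 : Real.log (Nv v) / q ≤ (P 1 v : ℝ) * Real.log (Nv v) / q := by
        apply div_le_div_of_nonneg_right _ hq0.le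
        nlinarith
      have h8 : (1 - 1 / (q : ℝ)) * Real.log (Nv v) = Real.log (Nv v) - Real.log (Nv v) / q := by
        ring
      linarith
    · rw [if_neg h6, mul_zero, zero_add, le_div_iff₀ hq0]
      have h7 : (q : ℝ) ≤ (P 1 v : ℝ) := by exact_mod_cast not_lt.1 h6
      nlinarith
  have h1q : (0 : ℝ) ≤ 1 - 1 / q := by
    have : 1 / (q : ℝ) ≤ 1 := by
      rw [div_le_one hq0]
      exact_mod_cast hq
    linarith
  have h2 := mul_le_mul_of_nonneg_left hGsum h1q
  linarith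

/-- the elements with few poles of small multiplicity -/
theorem gp_count {q : ℕ} (hq : 1 ≤ q) {ε : ℝ} (hε : 0 < ε) : ∃ A : ℝ, 0 ≤ A ∧
    ∀ (K : Type) [Field K] [NumberField K] (ρ X : ℝ) (E : Finset K), 0 ≤ ρ → 0 ≤ X →
      (∀ c ∈ E, Pt c ∧ ht c ≤ X ∧ gp q c ≤ ρ * ht c) →
        (E.card : ℝ) ≤ Real.exp (Module.finrank ℚ K * A + (1 + ρ + (1 - ρ) / q + ε) * X) := by
  classical
  obtain ⟨A, hA, h⟩ := class_card hε
  have l2 : 0 ≤ Real.log 2 := Real.log_nonneg (by norm_num)
  have hq0 : (0 : ℝ) < q := by exact_mod_cast hq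
  have hq1 : (1 : ℝ) ≤ q := by exact_mod_cast hq
  refine ⟨A + 2 * Real.log 2, by positivity, ?_⟩
  intro K _ _ ρ X E hρ hX hE
  set n := Module.finrank ℚ K with hn
  have hP : ∀ j : K, ∃ P : Fin 3 → Idl K, Pt j → IsP ∅ j P := by
    intro j
    by_cases hj : Pt j
    · obtain ⟨P, hP⟩ := exists_isP ∅ hj
      exact ⟨P, fun _ => hP⟩
    · exact ⟨fun _ => 0, fun h => absurd h hj⟩
  choose P hP using hP
  have h1 := h K X ((1 + ρ + (1 - ρ) / q) * X + n * (2 * Real.log 2)) E P 0 1 (by decide) ?_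
  · refine h1.trans (le_of_eq ?_)
    congr 1
    ring
  · intro j hj
    obtain ⟨h2, h3, h4⟩ := hE j hj
    refine ⟨h2, h3, hP j h2, ?_⟩
    have h5 := rl_den hq (hP j h2)
    have h7 := len_le h2 (hP j h2) 0
    have h7' := len_le h2 (hP j h2) 1
    have h8 := rl_le_len (P j 0)
    rw [cS_empty, ← hn] at h7 h7'
    have h1q : (0 : ℝ) ≤ 1 - 1 / q := by
      have : 1 / (q : ℝ) ≤ 1 := by
        rw [div_le_one hq0]
        exact hq1
      linarith
    have h9 : gp q j ≤ ρ * X := h4.trans (mul_le_mul_of_nonneg_left h3 hρ)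
    have h10 := mul_le_mul_of_nonneg_left h9 h1q
    have h11 : len (P j 1) / q ≤ (X + n * Real.log 2) / q := by
      apply div_le_div_of_nonneg_right _ hq0.le
      linarith
    have h12 : n * Real.log 2 / q ≤ n * Real.log 2 := by
      apply div_le_self (by positivity) hq1
    have e1 : (1 + ρ + (1 - ρ) / q) * X = X + (1 - 1 / q) * (ρ * X) + X / q := by
      field_simp
      ring
    rw [e1]
    rw [add_div] at h11
    linarith

/-- the elements which do not have enough of their height at poles of small multiplicity -/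
theorem gdq_card {q : ℕ} (hq : 1 ≤ q) {κ ε : ℝ} (hκ0 : 0 ≤ κ) (hκ1 : κ < 1) (hε : 0 < ε) :
    ∃ κ' A : ℝ, κ < κ' ∧ κ' < 1 ∧ 0 ≤ A ∧
      ∀ (K : Type) [Field K] [NumberField K] (X : ℝ) (E : Finset K), 0 ≤ X →
        (∀ c ∈ E, ht c ≤ X ∧
          ¬ (κ' * ht c ≤ gp q c ∧ Module.finrank ℚ K * (κ / (κ' - κ)) ≤ ht c)) →
        (E.card : ℝ) ≤
          Real.exp (Module.finrank ℚ K * A + (1 + κ + (1 - κ) / q + ε) * X) := by
  classical
  obtain ⟨A1, hA1, h1⟩ := fb_card (ε := 1) one_pos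
  obtain ⟨A2, hA2, h2⟩ := gp_count hq (half_pos hε)
  set t : ℝ := min (ε / 2) ((1 - κ) / 2) with ht0
  have ht1 : 0 < t := lt_min (by linarith) (by linarith)
  have ht2 : t ≤ ε / 2 := min_le_left _ _
  have ht3 : t ≤ (1 - κ) / 2 := min_le_right _ _
  set L0 : ℝ := κ / t with hL0
  have hL00 : 0 ≤ L0 := by positivity
  have hl2 : 0 ≤ Real.log 4 := Real.log_nonneg (by norm_num)
  have hq0 : (0 : ℝ) < q := by exact_mod_cast hq
  have hq1 : (1 : ℝ) ≤ q := by exact_mod_cast hq
  refine ⟨κ + t, A2 + (A1 + 3 * L0) + Real.log 4, by linarith, by linarith, by positivity, ?_⟩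
  intro K _ _ X E hX hE
  set n := Module.finrank ℚ K with hn
  have hn1 : (1 : ℝ) ≤ n := Pool.Agent.Y733.UD.finrank_one_le K
  set E1 := E.filter fun c => Pt c ∧ gp q c ≤ (κ + t) * ht c with hE1
  have hcov : E ⊆ (E1 ∪ Fb K (n * L0)) ∪ {0, -1} := by
    intro c hc
    obtain ⟨g1, g2⟩ := hE c hc
    rw [Finset.mem_union, Finset.mem_union, mem_Fb]
    by_cases hP : Pt c
    · left
      by_contra hcon
      push Not at hcon
      obtain ⟨g3, g4⟩ := hcon
      apply g2
      refine ⟨?_, ?_⟩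
      · by_contra g5
        push Not at g5
        apply g3
        rw [hE1, Finset.mem_filter]
        exact ⟨hc, hP, g5.le⟩
      · rw [show κ + t - κ = t by ring]
        exact g4.le
    · right
      unfold Pt at hP
      rw [Finset.mem_insert, Finset.mem_singleton]
      by_cases h0 : c = 0
      · exact Or.inl h0
      · right
        by_contra h2
        apply hP
        refine ⟨h0, ?_⟩
        intro h3
        exact h2 (eq_neg_of_add_eq_zero_left h3)
  have hc1 : (E1.card : ℝ) ≤ Real.exp (n * A2 +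
      (1 + (κ + t) + (1 - (κ + t)) / q + ε / 2) * X) := by
    refine h2 K _ X E1 (by linarith) hX fun c hc => ?_
    rw [hE1, Finset.mem_filter] at hc
    exact ⟨hc.2.1, (hE c hc.1).1, hc.2.2⟩
  have hc2 := h1 K (n * L0) (by positivity)
  have hcard : (E.card : ℝ) ≤ E1.card + (Fb K (n * L0)).card + 2 := by
    have k1 := Finset.card_le_card hcov
    have k2 := Finset.card_union_le (E1 ∪ Fb K (n * L0)) ({0, -1} : Finset K)
    have k3 := Finset.card_union_le E1 (Fb K (n * L0))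
    have k4 : ({0, -1} : Finset K).card ≤ 2 := Finset.card_le_two
    exact_mod_cast (by omega : E.card ≤ E1.card + (Fb K (n * L0)).card + 2)
  have hq2 : (1 - (κ + t)) / (q : ℝ) ≤ (1 - κ) / q :=
    div_le_div_of_nonneg_right (by linarith) hq0.le
  have hq3 : 0 ≤ (1 - κ) / (q : ℝ) := div_nonneg (by linarith) hq0.le
  set Y : ℝ := n * (A2 + (A1 + 3 * L0)) + (1 + κ + (1 - κ) / q + ε) * X with hY
  have hD : 0 ≤ (1 + κ + (1 - κ) / q + ε) * X := mul_nonneg (by linarith) hX
  have hn0 : (0 : ℝ) ≤ n := by linarith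
  have y1 : Real.exp (n * A2 + (1 + (κ + t) + (1 - (κ + t)) / q + ε / 2) * X) ≤ Real.exp Y := by
    apply Real.exp_le_exp.2
    have : (1 + (κ + t) + (1 - (κ + t)) / q + ε / 2) * X ≤ (1 + κ + (1 - κ) / q + ε) * X :=
      mul_le_mul_of_nonneg_right (by linarith) hX
    have h3 : 0 ≤ (n : ℝ) * (A1 + 3 * L0) := by positivity
    rw [hY]
    linarith
  have y2 : Real.exp (n * A1 + (2 + 1) * (n * L0)) ≤ Real.exp Y := by
    apply Real.exp_le_exp.2
    have h3 : 0 ≤ (n : ℝ) * A2 := by positivity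
    rw [hY]
    linarith
  have y3 : 1 ≤ Real.exp Y := by
    apply Real.one_le_exp
    rw [hY]
    positivity
  have h4 : (4 : ℝ) ≤ Real.exp (n * Real.log 4) := by
    have h4 : Real.exp (Real.log (4 : ℝ)) = 4 := Real.exp_log (by norm_num)
    calc (4 : ℝ) = Real.exp (Real.log (4 : ℝ)) := h4.symm
      _ ≤ _ := Real.exp_le_exp.2 (by nlinarith)
  calc (E.card : ℝ) ≤ 4 * Real.exp Y := by linarith
    _ ≤ Real.exp (n * Real.log 4) * Real.exp Y :=
        mul_le_mul_of_nonneg_right h4 (Real.exp_pos _).le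
    _ = _ := by
        rw [← Real.exp_add]
        congr 1
        rw [hY]
        ring

end Count

end Pool.Agent.H16.LH
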