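import Mathlib
import Pool.Agent.H16.LA.Gen
import Pool.Agent.H16.LH.Main

/-!
# Classes of extensions with restricted ramification
-/

set_option autoImplicit false
set_option linter.unusedSectionVars false
set_option linter.style.haveILetI false

namespace Pool.Agent.H16.LH

open NumberField IsDedekindDomain Pool.Agent.H691R3 Pool.Agent.W223.AK Pool.Agent.Y733.DYN
open Pool.Agent.H16.LA (card_inertia_dvd fv_nat_one ExponentField)

section

variable {K : Type} [Field K] [NumberField K]

/-- an element whose degree is at most `b` is fixed by the `M`-th powers of automorphisms, if `M` is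
divisible by `1, ..., b` -/
theorem pow_fix {N : Type} [Field N] [Algebra K N] [FiniteDimensional K N]
    {b M : ℕ} (hM : ∀ i, 0 < i → i ≤ b → i ∣ M) (x : N) (hx : (minpoly K x).natDegree ≤ b)
    (σ : N ≃ₐ[K] N) : (σ ^ M) x = x := by
  classical
  have hint : IsIntegral K x := Algebra.IsIntegral.isIntegral x
  have hne : minpoly K x ≠ 0 := minpoly.ne_zero hint
  set f : N → N := fun y => σ y with hf
  have hit : ∀ k : ℕ, ∀ y : N, f^[k] y = (σ ^ k) y := by
    intro k
    induction k with
    | zero => intro y; simp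
    | succ k ih =>
      intro y
      rw [Function.iterate_succ_apply', ih, pow_succ', AlgEquiv.mul_apply]
  have hroot : ∀ k : ℕ, f^[k] x ∈ (minpoly K x).rootSet N := by
    intro k
    rw [hit, Polynomial.mem_rootSet]
    refine ⟨hne, ?_⟩
    have h1 : Polynomial.aeval ((σ ^ k) x) (minpoly K x) =
        (σ ^ k) (Polynomial.aeval x (minpoly K x)) := by
      rw [← Polynomial.aeval_algHom_apply]
    rw [h1, minpoly.aeval, map_zero]
  haveI : Fintype (N ≃ₐ[K] N) := Fintype.ofFinite _
  have hper : x ∈ Function.periodicPts f := by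
    refine ⟨orderOf σ, orderOf_pos σ, ?_⟩
    change f^[orderOf σ] x = x
    rw [hit, pow_orderOf_eq_one]
    rfl
  have hpos := Function.minimalPeriod_pos_of_mem_periodicPts hper
  have hle : Function.minimalPeriod f x ≤ b := by
    have h1 : (Finset.range (Function.minimalPeriod f x)).card ≤
        ((minpoly K x).rootSet N).toFinset.card := by
      refine Finset.card_le_card_of_injOn (fun k => f^[k] x) ?_ ?_
      · intro k _
        rw [Finset.mem_coe, Set.mem_toFinset]
        exact hroot k
      · intro a ha b hb hab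
        rw [Finset.mem_coe, Finset.mem_range] at ha hb
        exact Function.iterate_injOn_Iio_minimalPeriod ha hb hab
    rw [Finset.card_range] at h1
    refine h1.trans (le_trans ?_ hx)
    rw [← Set.ncard_eq_toFinset_card']
    exact Polynomial.ncard_rootSet_le (minpoly K x) N
  have hdvd : Function.minimalPeriod f x ∣ M := hM _ hpos hle
  have h2 := Function.isPeriodicPt_iff_minimalPeriod_dvd.2 hdvd
  have h3 : f^[M] x = x := h2
  rwa [hit] at h3

variable {L : Type} [Field L] [NumberField L] [Algebra K L]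

theorem exponent_of_gen {b M : ℕ} (hM : ∀ i, 0 < i → i ≤ b → i ∣ M) {S : Set L}
    (hS : ∀ x ∈ S, (minpoly K x).natDegree ≤ b) (hadj : IntermediateField.adjoin K S = ⊤) :
    ExponentField M K L := by
  classical
  let Ω := AlgebraicClosure L
  let N0 := IntermediateField.normalClosure K L Ω
  haveI : FiniteDimensional K N0 := inferInstance
  haveI : IsGalois K N0 := inferInstance
  let H : Subgroup (N0 ≃ₐ[K] N0) := Subgroup.closure (Set.range fun σ => σ ^ M)
  haveI hHn : H.Normal := by
    constructor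
    intro n hn g
    induction hn using Subgroup.closure_induction with
    | mem x hx =>
      obtain ⟨σ, rfl⟩ := hx
      have e : g * σ ^ M * g⁻¹ = (g * σ * g⁻¹) ^ M := (conj_pow).symm
      rw [e]
      exact Subgroup.subset_closure ⟨_, rfl⟩
    | one => simp [H.one_mem]
    | mul x y _ _ hx hy =>
      have e : g * (x * y) * g⁻¹ = (g * x * g⁻¹) * (g * y * g⁻¹) := by group
      rw [e]
      exact H.mul_mem hx hy
    | inv x _ hx =>
      have e : g * x⁻¹ * g⁻¹ = (g * x * g⁻¹)⁻¹ := by group
      rw [e]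
      exact H.inv_mem hx
  let F : IntermediateField K N0 := IntermediateField.fixedField H
  haveI : IsGalois K F := IsGalois.of_fixedField_normal_subgroup H
  have hFfix : ∀ x : N0, (∀ σ : N0 ≃ₐ[K] N0, (σ ^ M) x = x) → x ∈ F := by
    intro x hx
    change x ∈ IntermediateField.fixedField H
    rw [IntermediateField.mem_fixedField_iff]
    intro g hg
    induction hg using Subgroup.closure_induction with
    | mem g hg =>
      obtain ⟨σ, rfl⟩ := hg
      exact hx σ
    | one => rfl
    | mul a b _ _ ha hb =>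
      rw [AlgEquiv.mul_apply, hb, ha]
    | inv a _ ha =>
      have h1 : a⁻¹ (a x) = x := by
        rw [← AlgEquiv.mul_apply, inv_mul_cancel]
        rfl
      rw [ha] at h1
      exact h1
  let f0 : L →ₐ[K] N0 := IsScalarTower.toAlgHom K L N0
  have hLF : ∀ y : L, f0 y ∈ F := by
    have h1 : IntermediateField.adjoin K S ≤ F.comap f0 := by
      rw [IntermediateField.adjoin_le_iff]
      intro x hx
      change f0 x ∈ F
      apply hFfix
      intro σ
      apply pow_fix hM
      have h2 : minpoly K (f0 x) = minpoly K x := minpoly.algHom_eq f0 f0.injective x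
      rw [h2]
      exact hS x hx
    rw [hadj] at h1
    intro y
    exact h1 (IntermediateField.mem_top (x := y))
  let g : L →ₐ[K] F := AlgHom.codRestrict f0 F.toSubalgebra hLF
  letI : Algebra L F := g.toRingHom.toAlgebra
  haveI : IsScalarTower K L F := IsScalarTower.of_algebraMap_eq' g.comp_algebraMap.symm
  haveI : FiniteDimensional K F := inferInstance
  haveI : NumberField F := NumberField.of_module_finite K F
  refine ⟨F, inferInstance, inferInstance, inferInstance, inferInstance, inferInstance,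
    inferInstance, ?_⟩
  intro τ
  obtain ⟨σ, hσ⟩ := AlgEquiv.restrictNormalHom_surjective (F := K) (K₁ := F) N0 τ
  rw [← hσ, ← map_pow]
  ext x
  have h1 : ((AlgEquiv.restrictNormalHom (F := K) (K₁ := N0) F (σ ^ M)) x : N0) = (σ ^ M) (x : N0) :=
    AlgEquiv.restrictNormal_commutes (σ ^ M) F x
  rw [h1]
  have h2 := x.2
  have h3 : (x : N0) ∈ IntermediateField.fixedField H := h2
  rw [IntermediateField.mem_fixedField_iff] at h3
  have h4 := h3 _ (Subgroup.subset_closure ⟨σ, rfl⟩)
  exact congrArg (fun z : N0 => (z : Ω)) h4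

/-- `L` is contained in a Galois extension of degree dividing `M` -/
def DegreeField (M : ℕ) (K L : Type) [Field K] [NumberField K] [Field L] [NumberField L]
    [Algebra K L] : Prop :=
  ∃ (N : Type) (_ : Field N) (_ : NumberField N) (_ : Algebra K N) (_ : Algebra L N),
    IsScalarTower K L N ∧ IsGalois K N ∧ Module.finrank K N ∣ M

theorem ram_pos' (w : Pr L) : 0 < w.asIdeal.ramificationIdx (𝓞 K) := by
  have h : w ∈ Ab L (w.under (𝓞 K)) := mem_Ab.2 ⟨rfl⟩
  rw [← ri_eq h]
  exact ri_pos h

theorem ram_le' (w : Pr L) : w.asIdeal.ramificationIdx (𝓞 K) ≤ Module.finrank K L := by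
  have h : w ∈ Ab L (w.under (𝓞 K)) := mem_Ab.2 ⟨rfl⟩
  rw [← ri_eq h]
  exact ri_le h

theorem ram_dvd_degree {M : ℕ} (h : DegreeField M K L) (w : Pr L) :
    w.asIdeal.ramificationIdx (𝓞 K) ∣ M := by
  obtain ⟨N, _, _, _, _, hs, hgal, hdeg⟩ := h
  haveI : w.asIdeal.IsPrime := w.isPrime
  haveI : w.asIdeal.IsMaximal := w.isMaximal
  obtain ⟨Q, hQp, hQw⟩ := Ideal.exists_ideal_over_prime_of_isIntegral_of_isDomain (S := 𝓞 N)
    w.asIdeal (by simp)
  haveI : Q.LiesOver w.asIdeal := ⟨hQw.symm⟩
  have hQbot : Q ≠ ⊥ := Ideal.ne_bot_of_liesOver_of_ne_bot w.ne_bot Q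
  set p : Ideal (𝓞 K) := Q.under (𝓞 K) with hp
  haveI : p.IsPrime := inferInstance
  haveI : Q.LiesOver p := ⟨rfl⟩
  have hp0 : p ≠ ⊥ := by
    rw [hp]
    exact mt (Ideal.eq_bot_of_comap_eq_bot) hQbot
  haveI : p.IsMaximal := Ideal.IsPrime.isMaximal inferInstance hp0
  have h1 := Ideal.ncard_primesOver_mul_ramificationIdxIn_mul_inertiaDegIn p (𝓞 N) (N ≃ₐ[K] N)
  rw [Ideal.ramificationIdxIn_eq_ramificationIdx p Q (N ≃ₐ[K] N),
    IsGalois.card_aut_eq_finrank] at h1
  have h2 : Q.ramificationIdx (𝓞 K) ∣ Module.finrank K N := by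
    rw [← h1]
    exact Dvd.dvd.mul_left (Dvd.intro _ rfl) _
  exact ((Ideal.ramificationIdx_below_dvd w.asIdeal Q).trans h2).trans hdeg

/-- the ramification indices divide `M` -/
theorem alw_of_dvd {q d M : ℕ} (hd : 0 < d) (hq : q * Nat.gcd d M ≤ d) {T : Finset (Pr K)}
    (h : ∀ w : Pr L, w.under (𝓞 K) ∉ T → w.asIdeal.ramificationIdx (𝓞 K) ∣ M) : Alw q d T L := by
  intro w hw
  refine le_trans (Nat.mul_le_mul_left q ?_) hq
  exact Nat.le_of_dvd (Nat.gcd_pos_of_pos_left _ hd) (Nat.gcd_dvd_gcd_of_dvd_right d (h w hw))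

theorem alw_of_degree {q d : ℕ} (hq : q * Module.finrank K L ≤ d) (T : Finset (Pr K)) :
    Alw q d T L := by
  intro w _
  refine le_trans (Nat.mul_le_mul_left q ?_) hq
  exact (Nat.gcd_le_right _ (ram_pos' w)).trans (ram_le' w)

theorem alw_two {d : ℕ} (hd : Module.finrank K L < d) (T : Finset (Pr K)) : Alw 2 d T L := by
  intro w _
  have h1 : Nat.gcd d (w.asIdeal.ramificationIdx (𝓞 K)) < d :=
    ((Nat.gcd_le_right _ (ram_pos' w)).trans (ram_le' w)).trans_lt hd
  obtain ⟨k, hk⟩ := Nat.gcd_dvd_left d (w.asIdeal.ramificationIdx (𝓞 K))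
  have h2 : 2 ≤ k := by
    by_contra hcon
    have h3 : k ≤ 1 := by omega
    have h4 : d ≤ Nat.gcd d (w.asIdeal.ramificationIdx (𝓞 K)) * 1 := by
      calc d = Nat.gcd d (w.asIdeal.ramificationIdx (𝓞 K)) * k := hk
        _ ≤ _ := Nat.mul_le_mul_left _ h3
    omega
  calc 2 * Nat.gcd d (w.asIdeal.ramificationIdx (𝓞 K))
      ≤ k * Nat.gcd d (w.asIdeal.ramificationIdx (𝓞 K)) := Nat.mul_le_mul_right _ h2
    _ = d := by rw [mul_comm]; exact hk.symm

theorem alw_of_exponent {q d M : ℕ} (hd : 0 < d) (hq : q * Nat.gcd d M ≤ d) {T : Finset (Pr K)}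
    (hT : ∀ v, v ∉ T → FinitePlace.mk v (M : K) = 1) (h : ExponentField M K L) : Alw q d T L := by
  apply alw_of_dvd hd hq
  intro w hw
  have h1 := Pool.Agent.H16.LA.tm_of_exponent h T w
  refine h1 ?_ hw
  have h2 := hT _ hw
  rw [fv_nat_one] at h2 ⊢
  intro h3
  apply h2
  change (M : 𝓞 K) ∈ Ideal.comap (algebraMap (𝓞 K) (𝓞 L)) w.asIdeal
  rw [Ideal.mem_comap, map_natCast]
  exact h3

end

end Pool.Agent.H16.LH
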